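import Mathlib

namespace DC99

open Module

/-- Euclidean space of dimension `n` -/
abbrev E (n : ℕ) := EuclideanSpace ℝ (Fin n)

/-- `F` is a (nonempty) face of the convex polytope `P` of dimension `i` -/
def IsFace {n : ℕ} (P : Set (E n)) (i : ℕ) (F : Set (E n)) : Prop :=
  F.Nonempty ∧ IsExposed ℝ P F ∧ finrank ℝ (vectorSpan ℝ F) = i

/-- a flag of `P`: faces `F_0 ⊂ F_1 ⊂ ⋯ ⊂ F_{d-1}`, where `F_i` has dimension `i` -/
def IsFlag {d : ℕ} (P : Set (E d)) (f : Fin d → Set (E d)) : Prop :=
  (∀ i : Fin d, IsFace P i (f i)) ∧ ∀ i j : Fin d, i ≤ j → f i ⊆ f j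

/-- two flags are in the same orbit of the group of all isometries mapping `P` onto itself -/
def SameOrbit {d : ℕ} (P : Set (E d)) (f g : Fin d → Set (E d)) : Prop :=
  ∃ T : E d ≃ᵢ E d, T '' P = P ∧ ∀ i, T '' (f i) = g i

/-- a convex `d`-polytope: the convex hull of finitely many points, with nonempty interior -/
def IsPolytope {d : ℕ} (P : Set (E d)) : Prop :=
  (∃ V : Set (E d), V.Finite ∧ P = convexHull ℝ V) ∧ (interior P).Nonempty

/-- `P` is a geometrically `k`-orbit convex `d`-polytope: its flags form exactly `k` orbits -/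
def IsKOrbit (k : ℕ) {d : ℕ} (P : Set (E d)) : Prop :=
  IsPolytope P ∧ ∃ F : Fin k → Fin d → Set (E d), (∀ j, IsFlag P (F j)) ∧
    (∀ f, IsFlag P f → ∃ j, SameOrbit P f (F j)) ∧ ∀ i j, SameOrbit P (F i) (F j) → i = j

/-- the vertex of the cube `[-1, 1]^n` with coordinates `-1` exactly on `A` -/
noncomputable def pt {n : ℕ} (A : Finset (Fin n)) : E n :=
  WithLp.toLp 2 (fun i => if i ∈ A then (-1 : ℝ) else 1)

/-- the demicube -/
noncomputable def dc (n : ℕ) : Set (E n) := convexHull ℝ {x | ∃ A : Finset (Fin n), Even A.card ∧ x = pt A}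

/-- the convex hull of a family of vertices of the cube -/
noncomputable def hull {n : ℕ} (G : Set (Finset (Fin n))) : Set (E n) := convexHull ℝ (pt '' G)

/-- the vertices adjacent to `V` in the directions `J` -/
def JT {n : ℕ} (V J : Finset (Fin n)) : Set (Finset (Fin n)) := {A | ∃ j ∈ J, A = symmDiff V {j}}

/-- the even vertices which agree with `W` outside `S` -/
def ST {n : ℕ} (W S : Finset (Fin n)) : Set (Finset (Fin n)) := {A | Even A.card ∧ symmDiff A W ⊆ S}

/-- the even vertices of the cube where `l` is maximal -/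
def am {n : ℕ} (l : StrongDual ℝ (E n)) : Set (Finset (Fin n)) :=
  {A | Even A.card ∧ ∀ B : Finset (Fin n), Even B.card → l (pt B) ≤ l (pt A)}

/-- a chain of subsets with one of each size -/
def IsChainC {n : ℕ} (C : ℕ → Finset (Fin n)) : Prop :=
  (∀ m, m ≤ n → (C m).card = m) ∧ ∀ m m', m ≤ m' → m' ≤ n → C m ⊆ C m'

/-- the vertex families of a flag of type `t` -/
def fam {n : ℕ} (V : Finset (Fin n)) (C : ℕ → Finset (Fin n)) (t : ℕ) (i : ℕ) : Set (Finset (Fin n)) :=
  if i < t then JT V (C (i + 1)) else ST V (C i)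

end DC99
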