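import Pool.Agent.V5helper99.DC.Defs
import Pool.Agent.V5helper7.DC.J14

namespace DC99

theorem J8_inj {n : ℕ} (V : Finset (Fin n)) : Function.Injective (fun x : Fin n => symmDiff V {x}) := by
  intro x y h
  have h2 : ({x} : Finset (Fin n)) = {y} := symmDiff_right_injective V h
  exact Finset.singleton_injective h2

theorem J8_card {n : ℕ} (A B : Finset (Fin n)) :
    (symmDiff A B).card + 2 * (A ∩ B).card = A.card + B.card := by
  have h1 : (symmDiff A B).card = (A \ B).card + (B \ A).card := by
    rw [symmDiff_def, Finset.sup_eq_union, Finset.card_union_of_disjoint]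
    exact disjoint_sdiff_sdiff
  have h2 := Finset.card_sdiff_add_card_inter A B
  have h3 := Finset.card_sdiff_add_card_inter B A
  rw [Finset.inter_comm B A] at h3
  omega

theorem J8_even {n : ℕ} (V : Finset (Fin n)) (hV : Odd V.card) (x : Fin n) :
    Even (symmDiff V {x}).card := by
  have := J8_card V {x}
  rw [Finset.card_singleton] at this
  obtain ⟨r, hr⟩ := hV
  rw [Nat.even_iff]; omega

theorem J8_sd {n : ℕ} (V : Finset (Fin n)) (x : Fin n) : symmDiff (symmDiff V {x}) V = {x} := by
  rw [symmDiff_comm V, symmDiff_assoc, symmDiff_self, symmDiff_bot]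

theorem t_J8 {n : ℕ} (hn : 3 ≤ n) (G : Fin n → Set (Finset (Fin n)))
    (hG : ∀ i : Fin n, (∃ V J : Finset (Fin n), Odd V.card ∧ J.card = i + 1 ∧ G i = JT V J) ∨
      (∃ W S : Finset (Fin n), Odd W.card ∧ S.card = i ∧ 3 ≤ S.card ∧ G i = ST W S))
    (hmono : ∀ i j, i ≤ j → G i ⊆ G j) :
    ∃ (t : ℕ) (V : Finset (Fin n)) (C : ℕ → Finset (Fin n)), 3 ≤ t ∧ t ≤ n ∧ Odd V.card ∧ IsChainC C ∧
      ∀ i : Fin n, G i = fam V C t i := by
  classical
  let Q : ℕ → Prop := fun m => m = n ∨ ∃ h : m < n, ∃ W S : Finset (Fin n), Odd W.card ∧ S.card = m ∧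
    3 ≤ S.card ∧ G ⟨m, h⟩ = ST W S
  have hQ : ∃ m, Q m := ⟨n, Or.inl rfl⟩
  obtain ⟨t, htQ, htmin⟩ : ∃ t, Q t ∧ ∀ m < t, ¬ Q m :=
    ⟨Nat.find hQ, Nat.find_spec hQ, fun m hm => Nat.find_min hQ hm⟩
  have ht3 : 3 ≤ t := by
    rcases htQ with h | ⟨h, W, S, _, h1, h2, _⟩ <;> omega
  have htn : t ≤ n := by
    rcases htQ with h | ⟨h, _⟩ <;> omega
  have hJ : ∀ i : Fin n, (i:ℕ) < t → ∃ V J : Finset (Fin n), Odd V.card ∧ J.card = i + 1 ∧ G i = JT V J := by
    intro i hi
    rcases hG i with h | h
    · exact h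
    · exact absurd (Or.inr ⟨i.2, h⟩) (htmin i hi)
  have hS : ∀ i : Fin n, t ≤ (i:ℕ) → ∃ W S : Finset (Fin n), Odd W.card ∧ S.card = i ∧ 3 ≤ S.card ∧ G i = ST W S := by
    intro i hi
    rcases hG i with ⟨V', J', _, _, h⟩ | h
    · exfalso
      rcases htQ with h' | ⟨h', W, S, _, _, h2, h3⟩
      · omega
      · have := hmono ⟨t, h'⟩ i hi
        rw [h3, h] at this
        exact t_J14 V' J' W S h2 this
    · exact h
  obtain ⟨V, J, hV, hJc, hGp⟩ := hJ ⟨t - 1, by omega⟩ (by simp; omega)
  have hJc' : J.card = t := by rw [hJc]; simp; omega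
  let c : Fin n → Finset (Fin n) := fun i => Finset.univ.filter (fun x => symmDiff V {x} ∈ G i)
  have hc : ∀ i x, x ∈ c i ↔ symmDiff V {x} ∈ G i := fun i x => by simp [c]
  have cmono : ∀ i j, i ≤ j → c i ⊆ c j := fun i j hij x hx =>
    (hc j x).2 (hmono i j hij ((hc i x).1 hx))
  have hlow : ∀ i : Fin n, (i:ℕ) < t → G i = JT V (c i) ∧ (c i).card = i + 1 := by
    intro i hi
    have h1 : G i ⊆ JT V J := by
      rw [← hGp]
      apply hmono
      show (i : ℕ) ≤ t - 1
      omega
    have h2 : G i = JT V (c i) := by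
      ext A
      constructor
      · intro hA
        obtain ⟨x, _, rfl⟩ := h1 hA
        exact ⟨x, (hc i x).2 hA, rfl⟩
      · rintro ⟨x, hx, rfl⟩
        exact (hc i x).1 hx
    refine ⟨h2, ?_⟩
    obtain ⟨Vi, Ji, _, hJi, hGi⟩ := hJ i hi
    have h3 : (c i).image (fun x => symmDiff V {x}) = Ji.image (fun x => symmDiff Vi {x}) := by
      ext A
      rw [Finset.mem_image, Finset.mem_image]
      constructor
      · rintro ⟨x, hx, rfl⟩
        have := (hc i x).1 hx
        rw [hGi] at this
        obtain ⟨y, hy, h⟩ := this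
        exact ⟨y, hy, h.symm⟩
      · rintro ⟨y, hy, rfl⟩
        have : symmDiff Vi {y} ∈ JT V (c i) := by
          rw [← h2, hGi]; exact ⟨y, hy, rfl⟩
        obtain ⟨x, hx, h⟩ := this
        exact ⟨x, hx, h.symm⟩
    have h4 := congrArg Finset.card h3
    rw [Finset.card_image_of_injective _ (J8_inj V), Finset.card_image_of_injective _ (J8_inj Vi)] at h4
    omega
  have hhigh : ∀ i : Fin n, t ≤ (i:ℕ) → G i = ST V (c i) ∧ (c i).card = i := by
    intro i hi
    obtain ⟨W, S, hW, hSc, hS3, hGi⟩ := hS i hi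
    have h1 : JT V J ⊆ ST W S := by
      rw [← hGp, ← hGi]
      apply hmono
      show t - 1 ≤ (i : ℕ)
      omega
    obtain ⟨x, y, hx, hy, hxy⟩ : ∃ x y, x ∈ J ∧ y ∈ J ∧ x ≠ y := by
      have : 1 < J.card := by omega
      obtain ⟨x, hx, y, hy, hxy⟩ := Finset.one_lt_card.mp this
      exact ⟨x, y, hx, hy, hxy⟩
    have hx1 := (h1 ⟨x, hx, rfl⟩).2
    have hy1 := (h1 ⟨y, hy, rfl⟩).2
    have key : symmDiff V W ⊆ S := by
      intro z hz
      by_cases hzx : z = x
      · subst hzx
        apply hy1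
        rw [symmDiff_assoc, symmDiff_comm ({y} : Finset (Fin n)) W, ← symmDiff_assoc, Finset.mem_symmDiff]
        left
        exact ⟨hz, by simpa using hxy⟩
      · apply hx1
        rw [symmDiff_assoc, symmDiff_comm ({x} : Finset (Fin n)) W, ← symmDiff_assoc, Finset.mem_symmDiff]
        left
        exact ⟨hz, by simpa using hzx⟩
    have h2 : ST W S = ST V S := by
      ext A
      constructor
      · rintro ⟨a, b⟩
        refine ⟨a, ?_⟩
        have : symmDiff A V = symmDiff (symmDiff A W) (symmDiff V W) := by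
          rw [symmDiff_comm V W, symmDiff_assoc, ← symmDiff_assoc W W, symmDiff_self, bot_symmDiff]
        rw [this]
        intro z hz
        rw [Finset.mem_symmDiff] at hz
        rcases hz with hz | hz
        · exact b hz.1
        · exact key hz.1
      · rintro ⟨a, b⟩
        refine ⟨a, ?_⟩
        have : symmDiff A W = symmDiff (symmDiff A V) (symmDiff V W) := by
          rw [symmDiff_assoc, ← symmDiff_assoc V V, symmDiff_self, bot_symmDiff]
        rw [this]
        intro z hz
        rw [Finset.mem_symmDiff] at hz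
        rcases hz with hz | hz
        · exact b hz.1
        · exact key hz.1
    have h3 : c i = S := by
      ext z
      rw [hc, hGi, h2]
      constructor
      · rintro ⟨_, b⟩
        rw [J8_sd] at b
        simpa using b
      · intro hz
        refine ⟨J8_even V hV z, ?_⟩
        rw [J8_sd]
        simpa using hz
    rw [h3]
    exact ⟨by rw [hGi, h2], hSc⟩
  let C : ℕ → Finset (Fin n) := fun m =>
    if h0 : m = 0 then ∅ else if h1 : m ≤ t then c ⟨m - 1, by omega⟩ else
      if h2 : m < n then c ⟨m, h2⟩ else Finset.univ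
  have hC1 : ∀ m (h0 : m ≠ 0) (h1 : m ≤ t), C m = c ⟨m - 1, by omega⟩ := by
    intro m h0 h1
    simp only [C]
    rw [dif_neg h0, dif_pos h1]
  have hC2 : ∀ m (h1 : t < m) (h2 : m < n), C m = c ⟨m, h2⟩ := by
    intro m h1 h2
    simp only [C]
    rw [dif_neg (by omega), dif_neg (by omega), dif_pos h2]
  have hC3 : ∀ m, t < m → n ≤ m → C m = Finset.univ := by
    intro m h1 h2
    simp only [C]
    rw [dif_neg (by omega), dif_neg (by omega), dif_neg (by omega)]
  have hC0 : C 0 = ∅ := by simp [C]
  refine ⟨t, V, C, ht3, htn, hV, ⟨?_, ?_⟩, ?_⟩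
  · intro m hm
    rcases Nat.eq_zero_or_pos m with h0 | h0
    · subst h0; rw [hC0]; simp
    rcases Nat.lt_or_ge t m with h1 | h1
    · rcases Nat.lt_or_ge m n with h2 | h2
      · rw [hC2 m h1 h2]
        exact (hhigh ⟨m, h2⟩ (by simp; omega)).2
      · rw [hC3 m h1 h2]
        simp; omega
    · rw [hC1 m (by omega) h1]
      have := (hlow ⟨m - 1, by omega⟩ (by simp; omega)).2
      rw [this]; simp; omega
  · intro m m' h h'
    rcases Nat.eq_zero_or_pos m with h0 | h0
    · subst h0; rw [hC0]; simp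
    rcases Nat.lt_or_ge t m' with h1 | h1
    · rcases Nat.lt_or_ge m' n with h2 | h2
      · rw [hC2 m' h1 h2]
        rcases Nat.lt_or_ge t m with h3 | h3
        · rw [hC2 m h3 (by omega)]
          exact cmono _ _ h
        · rw [hC1 m (by omega) h3]
          apply cmono
          show m - 1 ≤ m'
          omega
      · rw [hC3 m' h1 h2]
        exact Finset.subset_univ _
    · rw [hC1 m' (by omega) h1, hC1 m (by omega) (by omega)]
      apply cmono
      show m - 1 ≤ m' - 1
      omega
  · intro i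
    unfold fam
    split_ifs with h
    · rw [hC1 (i + 1) (by omega) (by omega)]
      exact (hlow i h).1
    · have h := not_lt.mp h
      rcases Nat.lt_or_ge t i with h1 | h1
      · rw [hC2 i h1 i.2]
        exact (hhigh i h).1
      · have hit : (i : ℕ) = t := by omega
        rw [hit, hC1 t (by omega) le_rfl]
        have a := (hlow ⟨t - 1, by omega⟩ (by simp; omega)).2
        have b := hhigh i h
        have hsub : c ⟨t - 1, by omega⟩ ⊆ c i := by
          apply cmono
          show t - 1 ≤ (i : ℕ)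
          omega
        have heq : c ⟨t - 1, by omega⟩ = c i := by
          apply Finset.eq_of_subset_of_card_le hsub
          rw [b.2, a]
          simp; omega
        rw [heq]
        exact b.1

end DC99
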