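import Pool.Agent.V5helper46.DC.J1
import Pool.Agent.V5helper98.DC.J2
import Pool.Agent.V5helper31.DC.J3
import Pool.Agent.V5helper36.DC.J4
import Pool.Agent.V5helper16.DC.J5
import Pool.Agent.V5helper61.DC.J6
import Pool.Agent.V5helper18.DC.J7
import Pool.Agent.V5helper99.DC.J8
import Pool.Agent.V5helper3.DC.J9
import Pool.Agent.V5helper15.DC.J10
import Pool.Agent.V5helper96.DC.J11
import Pool.Agent.V5helper4.DC.J12
import Pool.Agent.V5helper4.DC.J13
import Pool.Agent.V5helper7.DC.J14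
import Pool.Agent.V5helper11.DC.J15

namespace DC99
open Module

theorem face_cls {n : ℕ} (hn : 1 ≤ n) (i : ℕ) (F : Set (E n)) (hF : IsFace (dc n) i F) :
    (∃ V J : Finset (Fin n), Odd V.card ∧ J.card = i + 1 ∧ F = hull (JT V J)) ∨
    (∃ W S : Finset (Fin n), Odd W.card ∧ S.card = i ∧ 3 ≤ S.card ∧ F = hull (ST W S)) := by
  obtain ⟨h0, h1, h2⟩ := hF
  obtain ⟨l, hl⟩ := h1 h0
  rw [t_J1 l] at hl
  rcases t_J2 l hn with ⟨V, J, hV, hJ, h⟩ | ⟨W, S, hW, hS, h⟩
  · left
    rw [h] at hl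
    have := t_J5 V J hJ
    rw [← hl, h2] at this
    exact ⟨V, J, hV, this.symm, hl⟩
  · right
    rw [h] at hl
    have := t_J6 W S hS
    rw [← hl, h2] at this
    exact ⟨W, S, hW, this.symm, hS, hl⟩

theorem face_J {n : ℕ} (V J : Finset (Fin n)) (hV : Odd V.card) (i : ℕ) (hJ : J.card = i + 1) :
    IsFace (dc n) i (hull (JT V J)) := by
  have hJ' : J.Nonempty := Finset.card_pos.mp (by omega)
  obtain ⟨l, hl⟩ := t_J3 V J hV hJ'
  refine ⟨?_, ?_, ?_⟩
  · obtain ⟨j, hj⟩ := hJ'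
    exact ⟨_, subset_convexHull ℝ _ ⟨symmDiff V {j}, ⟨j, hj, rfl⟩, rfl⟩⟩
  · intro _
    exact ⟨l, by rw [t_J1 l, hl]⟩
  · have := t_J5 V J hJ'
    omega

theorem face_S {n : ℕ} (W S : Finset (Fin n)) (i : ℕ) (hS : 3 ≤ S.card) (hi : S.card = i) :
    IsFace (dc n) i (hull (ST W S)) := by
  have hS' : S.Nonempty := Finset.card_pos.mp (by omega)
  obtain ⟨l, hl⟩ := t_J4 W S hS'
  have h6 := t_J6 W S hS
  refine ⟨?_, ?_, ?_⟩
  · by_contra h
    rw [Set.not_nonempty_iff_eq_empty] at h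
    rw [h, vectorSpan_empty, finrank_bot] at h6
    omega
  · intro _
    exact ⟨l, by rw [t_J1 l, hl]⟩
  · omega

theorem hull_sub {n : ℕ} {G H : Set (Finset (Fin n))} (h : hull G ⊆ hull H) : G ⊆ H := by
  intro A hA
  exact t_J7 H A (h (subset_convexHull ℝ _ ⟨A, hA, rfl⟩))

theorem hull_mono {n : ℕ} {G H : Set (Finset (Fin n))} (h : G ⊆ H) : hull G ⊆ hull H :=
  convexHull_mono (Set.image_mono h)

theorem card_sd {n : ℕ} (A B : Finset (Fin n)) :
    (symmDiff A B).card + 2 * (A ∩ B).card = A.card + B.card := by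
  have h1 : (symmDiff A B).card = (A \ B).card + (B \ A).card := by
    rw [symmDiff_def, Finset.sup_eq_union, Finset.card_union_of_disjoint]
    exact disjoint_sdiff_sdiff
  have h2 := Finset.card_sdiff_add_card_inter A B
  have h3 := Finset.card_sdiff_add_card_inter B A
  rw [Finset.inter_comm B A] at h3
  omega

theorem flag_cls {n : ℕ} (hn : 3 ≤ n) (f : Fin n → Set (E n)) (hf : IsFlag (dc n) f) :
    ∃ (t : ℕ) (V : Finset (Fin n)) (C : ℕ → Finset (Fin n)), 3 ≤ t ∧ t ≤ n ∧ Odd V.card ∧ IsChainC C ∧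
      ∀ i : Fin n, f i = hull (fam V C t i) := by
  have h1 : ∀ i : Fin n, ∃ G : Set (Finset (Fin n)), f i = hull G ∧
      ((∃ V J : Finset (Fin n), Odd V.card ∧ J.card = i + 1 ∧ G = JT V J) ∨
      (∃ W S : Finset (Fin n), Odd W.card ∧ S.card = i ∧ 3 ≤ S.card ∧ G = ST W S)) := by
    intro i
    rcases face_cls (by omega) i (f i) (hf.1 i) with ⟨V, J, a, b, c⟩ | ⟨W, S, a, b, c, d⟩
    · exact ⟨_, c, Or.inl ⟨V, J, a, b, rfl⟩⟩
    · exact ⟨_, d, Or.inr ⟨W, S, a, b, c, rfl⟩⟩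
  choose G hG1 hG2 using h1
  obtain ⟨t, V, C, a, b, c, d, e⟩ := t_J8 hn G hG2 (fun i j hij => hull_sub (by
    rw [← hG1, ← hG1]; exact hf.2 i j hij))
  exact ⟨t, V, C, a, b, c, d, fun i => by rw [hG1, e i]⟩

theorem flag_mk {n : ℕ} (t : ℕ) (V : Finset (Fin n)) (C : ℕ → Finset (Fin n)) (ht : 3 ≤ t)
    (hV : Odd V.card) (hC : IsChainC C) : IsFlag (dc n) (fun i => hull (fam V C t i)) := by
  refine ⟨fun i => ?_, fun i j hij => ?_⟩
  · show IsFace (dc n) i (hull (fam V C t i))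
    unfold fam
    split_ifs with h
    · exact face_J V _ hV i (hC.1 _ (by omega))
    · have := hC.1 i (by omega)
      exact face_S V _ i (by omega) this
  · apply hull_mono
    have hij' : (i : ℕ) ≤ j := hij
    have hj := j.2
    unfold fam
    split_ifs with h h' h'
    · rintro A ⟨x, hx, rfl⟩
      exact ⟨x, hC.2 (i + 1) (j + 1) (by omega) (by omega) hx, rfl⟩
    · rintro A ⟨x, hx, rfl⟩
      refine ⟨?_, ?_⟩
      · have := card_sd V {x}
        rw [Finset.card_singleton] at this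
        obtain ⟨r, hr⟩ := hV
        rw [Nat.even_iff]; omega
      · rw [symmDiff_comm V, symmDiff_assoc, symmDiff_self, symmDiff_bot, Finset.singleton_subset_iff]
        exact hC.2 (i + 1) j (by omega) (by omega) hx
    · omega
    · rintro A ⟨h1, h2⟩
      exact ⟨h1, h2.trans (hC.2 i j hij' (by omega))⟩

theorem same_orbit {n : ℕ} (t : ℕ) (V V' : Finset (Fin n)) (C C' : ℕ → Finset (Fin n))
    (hV : Odd V.card) (hV' : Odd V'.card) (hC : IsChainC C) (hC' : IsChainC C') :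
    SameOrbit (dc n) (fun i => hull (fam V C t i)) (fun i => hull (fam V' C' t i)) := by
  obtain ⟨τ, hτ⟩ := t_J9 C C' hC hC'
  obtain ⟨T, hT⟩ := t_J10 τ V V'
  obtain ⟨h1, h2, h3⟩ := t_J11 τ V V' hV hV' T hT
  refine ⟨T.toIsometryEquiv, by simpa using h1, fun i => ?_⟩
  show T.toIsometryEquiv '' (hull (fam V C t i)) = hull (fam V' C' t i)
  have hc : (T.toIsometryEquiv : E n → E n) = T := rfl
  rw [hc]
  unfold fam
  split_ifs with h
  · rw [h2, hτ _ (by omega)]
  · rw [h3, hτ _ (by omega)]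

theorem so_symm {d : ℕ} {P : Set (E d)} {f g : Fin d → Set (E d)} (h : SameOrbit P f g) :
    SameOrbit P g f := by
  obtain ⟨T, h1, h2⟩ := h
  have key : ∀ A B : Set (E d), T '' A = B → T.symm '' B = A := by
    rintro A B rfl
    rw [← Set.image_comp]
    simp
  exact ⟨T.symm, key _ _ h1, fun i => key _ _ (h2 i)⟩

theorem type_inv {n : ℕ} (hn : 5 ≤ n) (t t' : ℕ) (V V' : Finset (Fin n)) (C C' : ℕ → Finset (Fin n))
    (ht : 3 ≤ t) (ht' : t' ≤ n) (hV' : Odd V'.card) (hC : IsChainC C) (hC' : IsChainC C')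
    (h : SameOrbit (dc n) (fun i => hull (fam V C t i)) (fun i => hull (fam V' C' t' i))) :
    ¬ t < t' := by
  intro hlt
  obtain ⟨T, h1, h2⟩ := so_symm h
  have h3 : T '' hull (JT V' (C' (t + 1))) = hull (ST V (C t)) := by
    have := h2 ⟨t, by omega⟩
    simpa [fam, hlt] using this
  have hct : (C t).card = t := hC.1 t (by omega)
  rcases Nat.lt_or_ge t 4 with h4 | h4
  · have ht3 : t = 3 := by omega
    subst ht3
    have hf := face_J V' (C' 5) hV' 4 (hC'.1 5 (by omega))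
    have hf2 := t_J12 (dc n) T h1 4 _ hf
    have hsub : hull (ST V (C 3)) ⊆ T '' hull (JT V' (C' 5)) := by
      rw [← h3]
      apply Set.image_mono
      apply hull_mono
      rintro A ⟨x, hx, rfl⟩
      exact ⟨x, hC'.2 4 5 (by omega) (by omega) hx, rfl⟩
    rcases face_cls (by omega) 4 _ hf2 with ⟨V2, J2, _, _, h5⟩ | ⟨W2, S2, _, h6, _, h5⟩
    · rw [h5] at hsub
      exact t_J14 V2 J2 V (C 3) (by omega) (hull_sub hsub)
    · exact t_J13 V' (C' 5) W2 S2 (by omega) T h5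
  · exact t_J13 V' (C' (t + 1)) V (C t) (by omega) T h3

/-- For every `k ≥ 3` the demicube of dimension `k + 2` is a geometrically `k`-orbit convex polytope. -/
theorem main (k : ℕ) (hk : 3 ≤ k) : IsKOrbit k (dc (k + 2)) := by
  refine ⟨⟨⟨_, ?_, rfl⟩, t_J15 _ (by omega)⟩, ?_⟩
  · apply Set.Finite.subset (Set.finite_range (fun A : Finset (Fin (k + 2)) => pt A))
    rintro x ⟨A, _, rfl⟩
    exact ⟨A, rfl⟩
  · let V0 : Finset (Fin (k + 2)) := {0}
    have hV0 : Odd V0.card := by simp [V0]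
    let C0 : ℕ → Finset (Fin (k + 2)) := fun m => Finset.univ.filter (fun i => (i : ℕ) < m)
    have hC0 : IsChainC C0 := by
      refine ⟨fun m hm => ?_, fun m m' h _ => ?_⟩
      · show (Finset.univ.filter (fun i : Fin (k + 2) => (i : ℕ) < m)).card = m
        rw [Fin.card_filter_val_lt]
        omega
      · intro x hx
        simp only [C0, Finset.mem_filter, Finset.mem_univ, true_and] at hx ⊢
        omega
    refine ⟨fun j i => hull (fam V0 C0 (j + 3) i), fun j => flag_mk _ V0 C0 (by omega) hV0 hC0, ?_, ?_⟩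
    · intro f hf
      obtain ⟨t, V, C, h1, h2, h3, h4, h5⟩ := flag_cls (by omega) f hf
      refine ⟨⟨t - 3, by omega⟩, ?_⟩
      have he : f = fun i : Fin (k + 2) => hull (fam V C t i) := funext h5
      rw [he]
      have ht : t - 3 + 3 = t := by omega
      show SameOrbit (dc (k + 2)) _ (fun i : Fin (k + 2) => hull (fam V0 C0 (t - 3 + 3) i))
      rw [ht]
      exact same_orbit t V V0 C C0 h3 hV0 h4 hC0
    · intro i j hij
      have a := type_inv (by omega) _ _ V0 V0 C0 C0 (by omega) (by omega) hV0 hC0 hC0 hij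
      have b := type_inv (by omega) _ _ V0 V0 C0 C0 (by omega) (by omega) hV0 hC0 hC0 (so_symm hij)
      apply Fin.ext
      omega

end DC99
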